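import Pool.Agent.Run7.h624.DM.Gap
import Pool.Agent.Run7.h624.DM.Cyc3

/-!
The variance of a function on `A_n` which is captured by the alternating group of a small set of
points.
-/

namespace Run7.h624.PG
open RC14 Finset Equiv Run7.h624.DM

noncomputable section

variable {n : ℕ}

open Classical in
/-- the even permutations which move only points of `B` -/
def HB (B : Finset (Fin n)) : Finset (Alt n) := {g | ∀ p, p ∉ B → (g : Perm (Fin n)) p = p}

lemma mem_HB {B : Finset (Fin n)} {g : Alt n} :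
    g ∈ HB B ↔ ∀ p, p ∉ B → (g : Perm (Fin n)) p = p := by
  unfold HB; rw [mem_filter]; simp

lemma one_mem_HB (B : Finset (Fin n)) : (1 : Alt n) ∈ HB B := by
  rw [mem_HB]; intro p _; rfl

lemma mul_mem_HB {B : Finset (Fin n)} {g h : Alt n} (hg : g ∈ HB B) (hh : h ∈ HB B) :
    g * h ∈ HB B := by
  rw [mem_HB] at *
  intro p hp
  rw [Subgroup.coe_mul, Perm.mul_apply, hh p hp, hg p hp]

lemma inv_mem_HB {B : Finset (Fin n)} {g : Alt n} (hg : g ∈ HB B) : g⁻¹ ∈ HB B := by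
  rw [mem_HB] at *
  intro p hp
  rw [Subgroup.coe_inv, Perm.inv_eq_iff_eq, hg p hp]

lemma HB_map {B : Finset (Fin n)} {g : Alt n} (hg : g ∈ HB B) {p : Fin n} (hp : p ∈ B) :
    (g : Perm (Fin n)) p ∈ B := by
  by_contra h
  have h1 := mem_HB.1 hg _ h
  have h2 : (g : Perm (Fin n)) p = p := (g : Perm (Fin n)).injective h1
  exact h (by rw [h2]; exact hp)

/-- moving a point inside `B`, with another point fixed -/
lemma exists_move {B : Finset (Fin n)} (hB : 4 ≤ #B) {q p p' : Fin n} (hp : p ∈ B) (hp' : p' ∈ B)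
    (h1 : p ≠ q) (h2 : p' ≠ q) :
    ∃ ρ ∈ HB B, (ρ : Perm (Fin n)) p = p' ∧ (ρ : Perm (Fin n)) q = q := by
  by_cases hpp : p = p'
  · exact ⟨1, one_mem_HB B, by simpa using hpp, rfl⟩
  · obtain ⟨t, ht⟩ : (B \ {q, p, p'}).Nonempty := by
      rw [← card_pos]
      have h3 := le_card_sdiff ({q, p, p'} : Finset (Fin n)) B
      have h4 : #({q, p, p'} : Finset (Fin n)) ≤ 3 := card_le_three
      omega
    rw [mem_sdiff] at ht
    obtain ⟨htB, ht⟩ := ht
    simp only [mem_insert, mem_singleton, not_or] at ht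
    obtain ⟨t1, t2, t3⟩ := ht
    refine ⟨⟨swap p p' * swap p' t, ?_⟩, ?_, ?_, ?_⟩
    · rw [Perm.mem_alternatingGroup, map_mul, Perm.sign_swap hpp, Perm.sign_swap (Ne.symm t3)]
      decide
    · rw [mem_HB]
      intro s hs
      have e1 : s ≠ p := fun e => hs (e ▸ hp)
      have e2 : s ≠ p' := fun e => hs (e ▸ hp')
      have e3 : s ≠ t := fun e => hs (e ▸ htB)
      show (swap p p' * swap p' t) s = s
      rw [Perm.mul_apply, swap_apply_of_ne_of_ne e2 e3, swap_apply_of_ne_of_ne e1 e2]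
    · show (swap p p' * swap p' t) p = p'
      rw [Perm.mul_apply, swap_apply_of_ne_of_ne hpp (Ne.symm t2), swap_apply_left]
    · show (swap p p' * swap p' t) q = q
      rw [Perm.mul_apply, swap_apply_of_ne_of_ne (Ne.symm h2) (Ne.symm t1),
        swap_apply_of_ne_of_ne (Ne.symm h1) (Ne.symm h2)]

open Classical in
/-- the elements of `HB B` with `j ↦ i` -/
def TT (B : Finset (Fin n)) (i j : Fin n) : Finset (Alt n) :=
  (HB B).filter fun w => (w : Perm (Fin n)) j = i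

lemma mem_TT {B : Finset (Fin n)} {i j : Fin n} {w : Alt n} :
    w ∈ TT B i j ↔ w ∈ HB B ∧ (w : Perm (Fin n)) j = i := by
  unfold TT; rw [mem_filter]

/-- left multiplication -/
lemma sum_TT_left {B : Finset (Fin n)} {i i' j : Fin n} {ρ : Alt n} (hρ : ρ ∈ HB B)
    (h : (ρ : Perm (Fin n)) i = i') (f : Alt n → ℝ) :
    ∑ w ∈ TT B i' j, f w = ∑ w ∈ TT B i j, f (ρ * w) := by
  symm
  refine sum_bij (fun w _ => ρ * w) ?_ ?_ ?_ ?_
  · intro w hw
    rw [mem_TT] at hw ⊢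
    refine ⟨mul_mem_HB hρ hw.1, ?_⟩
    rw [Subgroup.coe_mul, Perm.mul_apply, hw.2, h]
  · intro a _ b _ hab
    exact mul_left_cancel hab
  · intro w hw
    rw [mem_TT] at hw
    refine ⟨ρ⁻¹ * w, ?_, by group⟩
    rw [mem_TT]
    refine ⟨mul_mem_HB (inv_mem_HB hρ) hw.1, ?_⟩
    rw [Subgroup.coe_mul, Perm.mul_apply, hw.2, Subgroup.coe_inv, Perm.inv_eq_iff_eq, h]
  · intro w _; rfl

/-- right multiplication -/
lemma sum_TT_right {B : Finset (Fin n)} {i j j' : Fin n} {ρ : Alt n} (hρ : ρ ∈ HB B)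
    (h : (ρ : Perm (Fin n)) j' = j) (f : Alt n → ℝ) :
    ∑ w ∈ TT B i j', f w = ∑ w ∈ TT B i j, f (w * ρ) := by
  symm
  refine sum_bij (fun w _ => w * ρ) ?_ ?_ ?_ ?_
  · intro w hw
    rw [mem_TT] at hw ⊢
    refine ⟨mul_mem_HB hw.1 hρ, ?_⟩
    rw [Subgroup.coe_mul, Perm.mul_apply, h, hw.2]
  · intro a _ b _ hab
    exact mul_right_cancel hab
  · intro w hw
    rw [mem_TT] at hw
    refine ⟨w * ρ⁻¹, ?_, by group⟩
    rw [mem_TT]
    refine ⟨mul_mem_HB hw.1 (inv_mem_HB hρ), ?_⟩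
    rw [Subgroup.coe_mul, Perm.mul_apply, Subgroup.coe_inv, ← h]
    simpa using hw.2
  · intro w _; rfl

section one

variable {B : Finset (Fin n)} (hB : 4 ≤ #B)
include hB

lemma card_TT {i j i' j' : Fin n} (hi : i ∈ B) (hj : j ∈ B) (hi' : i' ∈ B) (hj' : j' ∈ B) :
    #(TT B i j) = #(TT B i' j') := by
  have hcard : ∀ a b : Fin n, (#(TT B a b) : ℝ) = ∑ w ∈ TT B a b, (1 : ℝ) := by
    intro a b; rw [sum_const, nsmul_eq_mul, mul_one]
  have key : ∀ a ∈ B, ∀ a' ∈ B, ∃ ρ ∈ HB B, (ρ : Perm (Fin n)) a = a' := by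
    intro a ha a' ha'
    obtain ⟨q, hq⟩ : (B \ {a, a'}).Nonempty := by
      rw [← card_pos]
      have h3 := le_card_sdiff ({a, a'} : Finset (Fin n)) B
      have h4 : #({a, a'} : Finset (Fin n)) ≤ 2 := card_le_two
      omega
    rw [mem_sdiff] at hq
    simp only [mem_insert, mem_singleton, not_or] at hq
    obtain ⟨ρ, h1, h2, -⟩ := exists_move hB ha ha' (Ne.symm hq.2.1) (Ne.symm hq.2.2)
    exact ⟨ρ, h1, h2⟩
  obtain ⟨ρ, h1, h2⟩ := key i hi i' hi'
  obtain ⟨ρ', h1', h2'⟩ := key j' hj' j hj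
  have e1 : (#(TT B i j) : ℝ) = #(TT B i' j') := by
    rw [hcard, hcard, sum_TT_left h1 h2, sum_TT_right h1' h2']
  exact_mod_cast e1

omit hB in
/-- the sum over the point of arrival -/
lemma sum_TT_i {j : Fin n} (hj : j ∈ B) (f : Alt n → ℝ) :
    ∑ i ∈ B, ∑ w ∈ TT B i j, f w = ∑ w ∈ HB B, f w := by
  classical
  rw [← sum_fiberwise_of_maps_to (s := HB B) (t := B) (g := fun w => (w : Perm (Fin n)) j)
    (fun w hw => HB_map hw hj)]
  refine sum_congr rfl fun i _ => ?_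
  refine sum_congr ?_ fun _ _ => rfl
  ext w
  rw [mem_TT, mem_filter]

omit hB in
lemma sum_TT_j {i : Fin n} (hi : i ∈ B) (f : Alt n → ℝ) :
    ∑ j ∈ B, ∑ w ∈ TT B i j, f w = ∑ w ∈ HB B, f w := by
  classical
  rw [← sum_fiberwise_of_maps_to (s := HB B) (t := B)
    (g := fun w => (w : Perm (Fin n)).symm i) (fun w hw => by
      have := HB_map (inv_mem_HB hw) hi
      exact this)]
  refine sum_congr rfl fun j _ => ?_
  refine sum_congr ?_ fun _ _ => rfl
  ext w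
  rw [mem_TT, mem_filter, Equiv.symm_apply_eq]
  constructor
  · rintro ⟨h1, h2⟩; exact ⟨h1, h2.symm⟩
  · rintro ⟨h1, h2⟩; exact ⟨h1, h2.symm⟩

lemma card_HB {i j : Fin n} (hi : i ∈ B) (hj : j ∈ B) : #(HB B) = #B * #(TT B i j) := by
  have h1 := sum_TT_i hj (fun _ => (1 : ℝ))
  simp only [sum_const, nsmul_eq_mul, mul_one] at h1
  have h2 : ∑ i' ∈ B, (#(TT B i' j) : ℝ) = ∑ _i' ∈ B, (#(TT B i j) : ℝ) :=
    sum_congr rfl fun i' hi' => by rw [card_TT hB hi' hj hi hj]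
  rw [h2, sum_const, nsmul_eq_mul] at h1
  exact_mod_cast h1.symm

open Classical in
/-- the elements of `HB B` with `i ↦ i` and `j ↦ p` -/
def TS (B : Finset (Fin n)) (i j p : Fin n) : Finset (Alt n) :=
  (TT B i i).filter fun σ => (σ : Perm (Fin n)) j = p

omit hB in
lemma mem_TS {i j p : Fin n} {σ : Alt n} :
    σ ∈ TS B i j p ↔ σ ∈ TT B i i ∧ (σ : Perm (Fin n)) j = p := by
  unfold TS; rw [mem_filter]

open Classical in
/-- two points -/
lemma card_TT2 {i j p : Fin n} (hi : i ∈ B) (hj : j ∈ B) (hp : p ∈ B) (hij : i ≠ j) (hpi : p ≠ i) :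
    (#B - 1) * #(TS B i j p) = #(TT B i i) := by
  have h1 : ∀ p' ∈ B.erase i, #(TS B i j p') =
      #(TS B i j p) := by
    intro p' hp'
    rw [mem_erase] at hp'
    obtain ⟨ρ, hρ, h2, h3⟩ := exists_move hB (q := i) hp hp'.2 hpi hp'.1
    symm
    refine card_bij (fun w _ => ρ * w) ?_ ?_ ?_
    · intro w hw
      rw [mem_TS, mem_TT] at hw ⊢
      refine ⟨⟨mul_mem_HB hρ hw.1.1, ?_⟩, ?_⟩
      · rw [Subgroup.coe_mul, Perm.mul_apply, hw.1.2, h3]
      · rw [Subgroup.coe_mul, Perm.mul_apply, hw.2, h2]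
    · intro a _ b _ hab
      exact mul_left_cancel hab
    · intro w hw
      rw [mem_TS, mem_TT] at hw
      refine ⟨ρ⁻¹ * w, ?_, by group⟩
      rw [mem_TS, mem_TT]
      refine ⟨⟨mul_mem_HB (inv_mem_HB hρ) hw.1.1, ?_⟩, ?_⟩
      · rw [Subgroup.coe_mul, Perm.mul_apply, hw.1.2, Subgroup.coe_inv, Perm.inv_eq_iff_eq, h3]
      · rw [Subgroup.coe_mul, Perm.mul_apply, hw.2, Subgroup.coe_inv, Perm.inv_eq_iff_eq, h2]
  have h2 : #(TT B i i) = ∑ p' ∈ B.erase i, #(TS B i j p') := by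
    unfold TS
    apply card_eq_sum_card_fiberwise
    intro σ hσ
    rw [mem_coe, mem_TT] at hσ
    rw [mem_coe, mem_erase]
    refine ⟨?_, HB_map hσ.1 hj⟩
    intro h
    exact hij ((σ : Perm (Fin n)).injective (hσ.2.trans h.symm))
  rw [h2, sum_congr rfl h1, sum_const, card_erase_of_mem hi, smul_eq_mul]

/-- averages over the translates -/
def FF (B : Finset (Fin n)) (h : Alt n → ℝ) (i j : Fin n) (g : Alt n) : ℝ :=
  ∑ w ∈ TT B i j, h (g * w)

/-- the product of two averages -/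
lemma FF_FF {h : Alt n → ℝ} (h0 : ∀ g, ∑ w ∈ HB B, h (g * w) = 0) {i j : Fin n} (hi : i ∈ B)
    (hj : j ∈ B) (hij : i ≠ j) (g : Alt n) :
    (#B - 1 : ℝ) * ∑ σ ∈ TT B i i, FF B h j j (g * σ) = - (#(TT B i i) : ℝ) * FF B h i j g := by
  classical
  have h1 : ∀ σ ∈ TT B i i, FF B h j j (g * σ) = FF B h ((σ : Perm (Fin n)) j) j g := by
    intro σ hσ
    rw [mem_TT] at hσ
    unfold FF
    rw [sum_TT_left (i := j) hσ.1 rfl (fun w => h (g * w))]
    refine sum_congr rfl fun w _ => ?_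
    rw [mul_assoc]
  rw [sum_congr rfl h1]
  have h2 : ∑ σ ∈ TT B i i, FF B h ((σ : Perm (Fin n)) j) j g =
      ∑ p ∈ B.erase i, (#(TS B i j p) : ℝ) * FF B h p j g := by
    rw [← sum_fiberwise_of_maps_to (s := TT B i i) (t := B.erase i)
      (g := fun σ : Alt n => (σ : Perm (Fin n)) j) (fun σ hσ => by
        rw [mem_TT] at hσ
        rw [mem_erase]
        refine ⟨?_, HB_map hσ.1 hj⟩
        intro h
        exact hij ((σ : Perm (Fin n)).injective (hσ.2.trans h.symm)))]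
    refine sum_congr rfl fun p _ => ?_
    rw [← nsmul_eq_mul, ← sum_const]
    unfold TS
    refine sum_congr rfl fun σ hσ => ?_
    rw [(mem_filter.1 hσ).2]
  rw [h2, mul_sum]
  have h3 : ∀ p ∈ B.erase i, (#B - 1 : ℝ) * ((#(TS B i j p) : ℝ) *
      FF B h p j g) = (#(TT B i i) : ℝ) * FF B h p j g := by
    intro p hp
    rw [mem_erase] at hp
    have h4 := card_TT2 hB hi hj hp.2 hij hp.1
    have h5 : (#B - 1 : ℝ) * (#(TS B i j p) : ℝ) = #(TT B i i) := by
      rw [← h4]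
      push_cast [Nat.cast_sub (show 1 ≤ #B by omega)]
      ring
    rw [← mul_assoc, h5]
  rw [sum_congr rfl h3, ← mul_sum]
  have h4 : ∑ p ∈ B, FF B h p j g = 0 := by
    unfold FF
    rw [sum_TT_i hj (fun w => h (g * w))]
    exact h0 g
  rw [← add_sum_erase B _ hi] at h4
  have h5 : ∑ p ∈ B.erase i, FF B h p j g = - FF B h i j g := by linarith
  rw [h5]
  ring

omit hB in
/-- self-adjointness -/
lemma FF_adj (h f : Alt n → ℝ) (i : Fin n) :
    ∑ g, f g * FF B h i i g = ∑ g, FF B f i i g * h g := by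
  unfold FF
  simp_rw [mul_sum, sum_mul]
  rw [sum_comm]
  have h1 : ∀ w : Alt n, ∑ g, f g * h (g * w) = ∑ g, f (g * w⁻¹) * h g := by
    intro w
    rw [← Equiv.sum_comp (Equiv.mulRight w) (fun g => f (g * w⁻¹) * h g)]
    refine sum_congr rfl fun g _ => ?_
    simp only [Equiv.coe_mulRight, mul_inv_cancel_right]
  simp_rw [h1]
  rw [sum_comm (s := univ)]
  refine sum_bij (fun w _ => w⁻¹) ?_ ?_ ?_ ?_
  · intro w hw
    rw [mem_TT] at hw ⊢
    refine ⟨inv_mem_HB hw.1, ?_⟩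
    rw [Subgroup.coe_inv, Perm.inv_eq_iff_eq, hw.2]
  · intro a _ b _ hab; exact inv_injective hab
  · intro w hw
    rw [mem_TT] at hw
    refine ⟨w⁻¹, ?_, inv_inv w⟩
    rw [mem_TT]
    refine ⟨inv_mem_HB hw.1, ?_⟩
    rw [Subgroup.coe_inv, Perm.inv_eq_iff_eq, hw.2]
  · intro w _; rfl

omit hB in
/-- idempotence -/
lemma FF_idem (h : Alt n → ℝ) (i : Fin n) (g : Alt n) :
    ∑ σ ∈ TT B i i, FF B h i i (g * σ) = (#(TT B i i) : ℝ) * FF B h i i g := by
  rw [← nsmul_eq_mul, ← sum_const]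
  refine sum_congr rfl fun σ hσ => ?_
  rw [mem_TT] at hσ
  unfold FF
  rw [sum_TT_left (i := i) hσ.1 hσ.2 (fun w => h (g * w))]
  refine sum_congr rfl fun w _ => ?_
  rw [mul_assoc]

end one

end

end Run7.h624.PG
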