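import Pool.Agent.Run7.h624.PG.Block

/-!
The variance of a function on `A_n` which is captured by the alternating group of a small set of
points.
-/

namespace Run7.h624.PG
open RC14 Finset Equiv Run7.h624.DM

noncomputable section

variable {n : ℕ}

/-- the average over the alternating group of `B` -/
def PB (B : Finset (Fin n)) (f : Alt n → ℝ) (g : Alt n) : ℝ :=
  (∑ w ∈ HB B, f (g * w)) / #(HB B)

/-- the variance which is captured by the alternating group of `B` -/
def VB (f : Alt n → ℝ) (B : Finset (Fin n)) : ℝ := ∑ g, (f g - PB B f g) ^ 2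

lemma card_HB_pos (B : Finset (Fin n)) : (0 : ℝ) < #(HB B) := by
  exact_mod_cast card_pos.2 ⟨1, one_mem_HB B⟩

lemma VB_nonneg (f : Alt n → ℝ) (B : Finset (Fin n)) : 0 ≤ VB f B := sum_nonneg fun _ _ => sq_nonneg _

lemma sum_HB_mul {B : Finset (Fin n)} {v : Alt n} (hv : v ∈ HB B) (f : Alt n → ℝ) :
    ∑ w ∈ HB B, f (v * w) = ∑ w ∈ HB B, f w := by
  refine sum_bij (fun w _ => v * w) ?_ ?_ ?_ ?_
  · intro w hw; exact mul_mem_HB hv hw
  · intro a _ b _ hab; exact mul_left_cancel hab
  · intro w hw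
    exact ⟨v⁻¹ * w, mul_mem_HB (inv_mem_HB hv) hw, by group⟩
  · intro w _; rfl

lemma PB_mul {B : Finset (Fin n)} {v : Alt n} (hv : v ∈ HB B) (f : Alt n → ℝ) (g : Alt n) :
    PB B f (g * v) = PB B f g := by
  unfold PB
  congr 1
  have := sum_HB_mul hv (fun w => f (g * w))
  rw [← this]
  refine sum_congr rfl fun w _ => ?_
  rw [mul_assoc]

/-- the difference has mean zero on the cosets -/
lemma sum_sub_PB (B : Finset (Fin n)) (f : Alt n → ℝ) (g : Alt n) :
    ∑ w ∈ HB B, (f (g * w) - PB B f (g * w)) = 0 := by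
  have hp := card_HB_pos B
  rw [sum_sub_distrib]
  have h1 : ∑ w ∈ HB B, PB B f (g * w) = #(HB B) * PB B f g := by
    rw [← nsmul_eq_mul, ← sum_const]
    exact sum_congr rfl fun w hw => PB_mul hw f g
  rw [h1]
  unfold PB
  field_simp
  ring

lemma sum_mul_PB (B : Finset (Fin n)) (f : Alt n → ℝ) :
    ∑ g, PB B f g ^ 2 = ∑ g, f g * PB B f g := by
  have hp := card_HB_pos B
  have h1 : (#(HB B) : ℝ) * ∑ g, (f g - PB B f g) * PB B f g = 0 := by
    rw [← nsmul_eq_mul, ← sum_const]
    have h2 : ∀ w ∈ HB B, ∑ g, (f g - PB B f g) * PB B f g =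
        ∑ g, (f (g * w) - PB B f (g * w)) * PB B f g := by
      intro w hw
      rw [← Equiv.sum_comp (Equiv.mulRight w) (fun g => (f g - PB B f g) * PB B f g)]
      refine sum_congr rfl fun g _ => ?_
      simp only [Equiv.coe_mulRight]
      rw [PB_mul hw]
    rw [sum_congr rfl h2, sum_comm]
    refine sum_eq_zero fun g _ => ?_
    rw [← sum_mul, sum_sub_PB, zero_mul]
  have h2 : ∑ g, (f g - PB B f g) * PB B f g = 0 := by
    rcases mul_eq_zero.1 h1 with h | h
    · exact absurd h hp.ne'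
    · exact h
  have h3 : ∑ g, (f g - PB B f g) * PB B f g = ∑ g, f g * PB B f g - ∑ g, PB B f g ^ 2 := by
    rw [← sum_sub_distrib]
    exact sum_congr rfl fun g _ => by ring
  linarith

/-- the variance as an average of energies -/
lemma VB_eq (f : Alt n → ℝ) (B : Finset (Fin n)) :
    2 * #(HB B) * VB f B = ∑ w ∈ HB B, eg f w := by
  have hp := card_HB_pos B
  have h1 : VB f B = ∑ g, f g ^ 2 - ∑ g, f g * PB B f g := by
    unfold VB
    have h2 : ∀ g, (f g - PB B f g) ^ 2 = f g ^ 2 - 2 * (f g * PB B f g) + PB B f g ^ 2 :=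
      fun g => by ring
    simp_rw [h2]
    rw [sum_add_distrib, sum_sub_distrib, ← mul_sum, sum_mul_PB]
    ring
  have h3 : ∀ w : Alt n, eg f w = 2 * ∑ g, f g ^ 2 - 2 * ∑ g, f g * f (g * w) := by
    intro w
    have h2 : ∑ g, f (g * w) ^ 2 = ∑ g, f g ^ 2 :=
      Equiv.sum_comp (Equiv.mulRight w) (fun g => f g ^ 2)
    unfold eg
    have h3 : ∀ g, (f (g * w) - f g) ^ 2 = f (g * w) ^ 2 + f g ^ 2 - 2 * (f g * f (g * w)) :=
      fun g => by ring
    simp_rw [h3]
    rw [sum_sub_distrib, sum_add_distrib, h2, ← mul_sum]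
    ring
  simp_rw [h3]
  rw [sum_sub_distrib, sum_const, nsmul_eq_mul, ← mul_sum, sum_comm, h1]
  have h4 : ∑ g, f g * PB B f g = (∑ g, ∑ w ∈ HB B, f g * f (g * w)) / #(HB B) := by
    rw [sum_div]
    refine sum_congr rfl fun g _ => ?_
    unfold PB
    rw [← mul_sum, mul_div_assoc]
  rw [h4]
  field_simp

lemma TT_eq {B : Finset (Fin n)} (i : Fin n) : TT B i i = HB (B.erase i) := by
  ext w
  rw [mem_TT, mem_HB, mem_HB]
  constructor
  · rintro ⟨h1, h2⟩ p hp
    rw [mem_erase, not_and_or, not_ne_iff] at hp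
    rcases hp with rfl | hp
    · exact h2
    · exact h1 p hp
  · intro h
    exact ⟨fun p hp => h p fun hp' => hp (mem_of_mem_erase hp'), h i (notMem_erase i B)⟩

/-- some point can be removed -/
theorem exists_erase {B : Finset (Fin n)} (hB : 4 ≤ #B) (f : Alt n → ℝ) :
    ∃ i ∈ B, (1 - 1 / (#B - 1 : ℝ)) * VB f B ≤ VB f (B.erase i) := by
  have hBr : (4 : ℝ) ≤ #B := by exact_mod_cast hB
  set m : ℝ := (#B - 1 : ℝ) with hm
  have hm0 : 0 < m := by rw [hm]; linarith
  set h : Alt n → ℝ := fun g => f g - PB B f g with hh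
  have h0 : ∀ g, ∑ w ∈ HB B, h (g * w) = 0 := fun g => sum_sub_PB B f g
  obtain ⟨i0, hi0⟩ : B.Nonempty := card_pos.1 (by omega)
  set M : ℝ := (#(TT B i0 i0) : ℝ) with hM
  have hMi : ∀ i ∈ B, (#(TT B i i) : ℝ) = M := by
    intro i hi
    rw [hM, card_TT hB hi hi hi0 hi0]
  have hM0 : 0 < M := by
    rw [hM, TT_eq]; exact card_HB_pos _
  set P : Fin n → Alt n → ℝ := fun i g => FF B h i i g / M with hP
  -- the projections
  have hsq : ∀ i ∈ B, ∑ g, P i g ^ 2 = ∑ g, h g * P i g := by
    intro i hi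
    have e1 := FF_adj (B := B) (FF B h i i) h i
    have e2 : ∀ g, FF B (FF B h i i) i i g = M * FF B h i i g := by
      intro g
      rw [← hMi i hi, ← FF_idem]
      rfl
    simp_rw [e2] at e1
    have e3 : ∑ g, P i g ^ 2 = (∑ g, FF B h i i g * FF B h i i g) / M ^ 2 := by
      rw [sum_div]
      refine sum_congr rfl fun g _ => ?_
      rw [hP]; field_simp
    have e4 : ∑ g, h g * P i g = (∑ g, h g * (M * FF B h i i g)) / M ^ 2 := by
      rw [sum_div]
      refine sum_congr rfl fun g _ => ?_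
      rw [hP]; field_simp
    rw [e3, e4, e1]
  have hVi : ∀ i ∈ B, VB f (B.erase i) = ∑ g, h g ^ 2 - ∑ g, h g * P i g := by
    intro i hi
    have e1 : ∀ g, f g - PB (B.erase i) f g = h g - P i g := by
      intro g
      have e2 : PB (B.erase i) f g = FF B f i i g / M := by
        unfold PB FF
        rw [← TT_eq, hMi i hi]
      have e3 : FF B f i i g = FF B h i i g + M * PB B f g := by
        unfold FF
        rw [← hMi i hi, ← nsmul_eq_mul, ← sum_const, ← sum_add_distrib]
        refine sum_congr rfl fun w hw => ?_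
        rw [mem_TT] at hw
        rw [hh]
        simp only
        rw [PB_mul hw.1]
        ring
      rw [e2, e3, hP, hh]
      field_simp
      ring
    unfold VB
    simp_rw [e1]
    have e2 : ∀ g, (h g - P i g) ^ 2 = h g ^ 2 - 2 * (h g * P i g) + P i g ^ 2 := fun g => by ring
    simp_rw [e2]
    rw [sum_add_distrib, sum_sub_distrib, ← mul_sum, hsq i hi]
    ring
  -- the sum of the projections
  set U : Alt n → ℝ := fun g => ∑ i ∈ B, P i g with hU
  set S : ℝ := ∑ i ∈ B, ∑ g, h g * P i g with hS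
  have hcross : ∀ i ∈ B, ∑ j ∈ B.erase i, ∑ g, P i g * P j g = (∑ g, h g * P i g) / m := by
    intro i hi
    have e1 : ∀ j ∈ B.erase i, ∑ g, P i g * P j g =
        - (∑ g, h g * FF B h i j g) / (m * M) := by
      intro j hj
      rw [mem_erase] at hj
      have e2 := FF_adj (B := B) (FF B h j j) h i
      have e3 : ∀ g, m * FF B (FF B h j j) i i g = - M * FF B h i j g := by
        intro g
        have := FF_FF hB h0 hi hj.2 (Ne.symm hj.1) g
        rw [hMi i hi] at this
        exact this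
      have e4 : ∑ g, P i g * P j g = (∑ g, FF B h i i g * FF B h j j g) / M ^ 2 := by
        rw [sum_div]
        refine sum_congr rfl fun g _ => ?_
        rw [hP]; field_simp
      rw [e4, ← e2]
      have e5 : m * ∑ g, h g * FF B (FF B h j j) i i g = - M * ∑ g, h g * FF B h i j g := by
        rw [mul_sum, mul_sum]
        refine sum_congr rfl fun g _ => ?_
        have := e3 g
        calc m * (h g * FF B (FF B h j j) i i g) = h g * (m * FF B (FF B h j j) i i g) := by ring
          _ = h g * (- M * FF B h i j g) := by rw [this]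
          _ = _ := by ring
      rw [div_eq_div_iff (by positivity) (by positivity)]
      calc (∑ g, h g * FF B (FF B h j j) i i g) * (m * M) =
          (m * ∑ g, h g * FF B (FF B h j j) i i g) * M := by ring
        _ = _ := by rw [e5]; ring
    rw [sum_congr rfl e1, ← sum_div, sum_neg_distrib, sum_comm]
    have e2 : ∀ g, ∑ j ∈ B.erase i, h g * FF B h i j g = - (h g * FF B h i i g) := by
      intro g
      rw [← mul_sum]
      have e3 : ∑ j ∈ B, FF B h i j g = 0 := by
        unfold FF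
        rw [sum_TT_j hi (fun w => h (g * w))]
        exact h0 g
      rw [← add_sum_erase B _ hi] at e3
      have : ∑ j ∈ B.erase i, FF B h i j g = - FF B h i i g := by linarith
      rw [this]; ring
    simp_rw [e2]
    rw [sum_neg_distrib, neg_neg]
    have e3 : ∑ g, h g * P i g = (∑ g, h g * FF B h i i g) / M := by
      rw [sum_div]
      refine sum_congr rfl fun g _ => ?_
      rw [hP]; ring
    rw [e3]
    field_simp
  have hUU : ∑ g, U g ^ 2 = (1 + 1 / m) * S := by
    have e1 : ∑ g, U g ^ 2 = ∑ i ∈ B, ∑ j ∈ B, ∑ g, P i g * P j g := by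
      have e2 : ∀ g, U g ^ 2 = ∑ i ∈ B, ∑ j ∈ B, P i g * P j g := by
        intro g
        rw [hU, sq]
        simp only
        rw [sum_mul_sum]
      simp_rw [e2]
      rw [sum_comm]
      refine sum_congr rfl fun i _ => ?_
      rw [sum_comm]
    rw [e1, hS, mul_sum]
    refine sum_congr rfl fun i hi => ?_
    rw [← add_sum_erase B _ hi, hcross i hi]
    have e2 : ∑ g, P i g * P i g = ∑ g, h g * P i g := by
      rw [← hsq i hi]
      exact sum_congr rfl fun g _ => by ring
    rw [e2]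
    ring
  have hhU : ∑ g, h g * U g = S := by
    rw [hS, sum_comm]
    refine sum_congr rfl fun g _ => ?_
    rw [hU]
    simp only
    rw [mul_sum]
  have hS0 : 0 ≤ S := by
    rw [hS]
    refine sum_nonneg fun i hi => ?_
    rw [← hsq i hi]
    exact sum_nonneg fun _ _ => sq_nonneg _
  have hVh : VB f B = ∑ g, h g ^ 2 := rfl
  have hSle : S ≤ (1 + 1 / m) * VB f B := by
    have e1 := sum_mul_sq_le_sq_mul_sq (univ : Finset (Alt n)) h U
    rw [hhU, hUU, ← hVh] at e1
    rcases hS0.eq_or_lt with h1 | h1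
    · rw [← h1]
      have := VB_nonneg f B
      positivity
    · have e2 : S * S ≤ S * ((1 + 1 / m) * VB f B) := by nlinarith
      exact le_of_mul_le_mul_left e2 h1
  by_contra hcon
  push Not at hcon
  have e1 : ∑ i ∈ B, VB f (B.erase i) < ∑ _i ∈ B, (1 - 1 / m) * VB f B :=
    sum_lt_sum_of_nonempty ⟨i0, hi0⟩ fun i hi => hcon i hi
  rw [sum_congr rfl hVi, sum_sub_distrib, ← hS, sum_const, sum_const, nsmul_eq_mul, nsmul_eq_mul,
    ← hVh] at e1
  have e2 : (#B : ℝ) = m + 1 := by rw [hm]; ring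
  rw [e2] at e1
  have e3 : (m + 1) * VB f B - (m + 1) * ((1 - 1 / m) * VB f B) = (1 + 1 / m) * VB f B := by
    field_simp
    ring
  linarith

lemma VB_univ (f : Alt n → ℝ) (hf : ∑ g, f g = 0) : VB f univ = ∑ g, f g ^ 2 := by
  have h1 : HB (univ : Finset (Fin n)) = univ := by
    ext w
    rw [mem_HB]
    simp
  unfold VB
  refine sum_congr rfl fun g _ => ?_
  have h2 : PB univ f g = 0 := by
    unfold PB
    rw [h1]
    have h3 : ∑ w, f (g * w) = ∑ w, f w := Equiv.sum_comp (Equiv.mulLeft g) f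
    rw [h3, hf, zero_div]
  rw [h2, sub_zero]

/-- the variance of small blocks -/
theorem exists_block (hn : 4 ≤ n) (f : Alt n → ℝ) (hf : ∑ g, f g = 0) (d : ℕ) (hd : d + 3 ≤ n) :
    ∃ B : Finset (Fin n), #B = n - d ∧
      ((n : ℝ) - d - 1) / (n - 1) * ∑ g, f g ^ 2 ≤ VB f B := by
  have hnr : (4 : ℝ) ≤ n := by exact_mod_cast hn
  induction d with
  | zero =>
    refine ⟨univ, by simp, ?_⟩
    rw [VB_univ f hf]
    have : ((n : ℝ) - (0 : ℕ) - 1) / (n - 1) = 1 := by
      push_cast
      rw [sub_zero, div_self]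
      linarith
    rw [this, one_mul]
  | succ d ih =>
    obtain ⟨B, hB, h1⟩ := ih (by omega)
    obtain ⟨i, hi, h2⟩ := exists_erase (B := B) (by omega) f
    refine ⟨B.erase i, by rw [card_erase_of_mem hi]; omega, ?_⟩
    refine le_trans ?_ h2
    have hBr : (#B : ℝ) = n - d := by
      rw [hB, Nat.cast_sub (by omega)]
    have hdn : (d : ℝ) + 4 ≤ n := by exact_mod_cast (show d + 4 ≤ n by omega)
    rw [hBr]
    have e1 : ((n : ℝ) - (d + 1 : ℕ) - 1) / (n - 1) =
        (1 - 1 / ((n : ℝ) - d - 1)) * (((n : ℝ) - d - 1) / (n - 1)) := by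
      have : (n : ℝ) - d - 1 ≠ 0 := by linarith
      have : (n : ℝ) - 1 ≠ 0 := by linarith
      push_cast
      field_simp
      ring
    rw [e1, mul_assoc]
    apply mul_le_mul_of_nonneg_left h1
    have : 1 / ((n : ℝ) - d - 1) ≤ 1 := by
      rw [div_le_one (by linarith)]
      linarith
    linarith

variable {k : ℕ}

/-- the gap from short words for the products of few disjoint three-cycles -/
theorem gap_of_T3 (hn : 4 ≤ n) (hk : 1 ≤ k) (x : Fin k → Alt n) {q L : ℕ} (hq : 3 ≤ q) (hqn : q ≤ n)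
    (hL : AllT3 x q L) (f : Alt n → ℝ) (hf : ∑ g, f g = 0) :
    ((q : ℝ) - 1) / (n - 1) / (k * ((1 + 5 * Real.log n) * L) ^ 2) * ∑ g, f g ^ 2 ≤
      ∑ g, f g ^ 2 - ∑ g, f g * walk x f g := by
  have hkp : (0 : ℝ) < k := by exact_mod_cast hk
  have hnr : (4 : ℝ) ≤ n := by exact_mod_cast hn
  have hqr : (3 : ℝ) ≤ q := by exact_mod_cast hq
  have hlog : 0 ≤ Real.log n := Real.log_natCast_nonneg n
  have hF : 0 ≤ ∑ g, f g ^ 2 := sum_nonneg fun _ _ => sq_nonneg _
  obtain ⟨B, hB, h1⟩ := exists_block hn f hf (n - q) (by omega)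
  have hBq : #B = q := by omega
  set E : ℝ := ∑ i, eg f (x i) with hE
  have hE1 : ∀ i, eg f (x i) ≤ E := fun i =>
    single_le_sum (f := fun i => eg f (x i)) (fun i _ => eg_nonneg f _) (mem_univ i)
  have hE0 : 0 ≤ E := sum_nonneg fun i _ => eg_nonneg f _
  set J : ℝ := (1 + 5 * Real.log n) * L with hJ
  have hJ0 : 0 ≤ J := by rw [hJ]; positivity
  have h2 : ∀ w ∈ HB B, eg f w ≤ J ^ 2 * E := by
    intro w hw
    have hsup : #(w : Perm (Fin n)).support ≤ q := by
      rw [← hBq]
      apply card_le_card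
      intro p hp
      by_contra hpB
      exact (Perm.mem_support.1 hp) (mem_HB.1 hw p hpB)
    obtain ⟨j, hj, hwB⟩ := all_words x q L (by omega) hL _ w rfl
    obtain ⟨l, hl1, hl2, hl3⟩ := hwB
    have hle : (l.length : ℝ) ≤ J := by
      have e1 : (l.length : ℝ) ≤ j * L := by exact_mod_cast hl1
      have e2 : (j : ℝ) ≤ 1 + 5 * Real.log n := by
        refine hj.trans ?_
        have e3 : (#(w : Perm (Fin n)).support : ℝ) / q ≤ 1 := by
          rw [div_le_one (by linarith)]
          exact_mod_cast hsup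
        have e4 : Real.log (#(w : Perm (Fin n)).support : ℝ) ≤ Real.log n := by
          rcases Nat.eq_zero_or_pos #(w : Perm (Fin n)).support with h0 | h0
          · rw [h0]; simpa using hlog
          · apply Real.log_le_log (by exact_mod_cast h0)
            exact_mod_cast hsup.trans hqn
        linarith
      refine e1.trans ?_
      rw [hJ]
      gcongr
    have h3 := eg_list f l E (by
      intro y hy
      obtain ⟨i, rfl | rfl⟩ := hl2 y hy
      · exact hE1 i
      · rw [eg_inv]; exact hE1 i)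
    rw [hl3] at h3
    refine h3.trans ?_
    gcongr
  have h3 : VB f B ≤ J ^ 2 * E / 2 := by
    have h4 := VB_eq f B
    have h5 : ∑ w ∈ HB B, eg f w ≤ #(HB B) * (J ^ 2 * E) := by
      rw [← nsmul_eq_mul]
      exact sum_le_card_nsmul _ _ _ h2
    rw [← h4] at h5
    have hp := card_HB_pos B
    have h6 : (#(HB B) : ℝ) * (2 * VB f B) ≤ #(HB B) * (J ^ 2 * E) := by linarith
    have h7 := le_of_mul_le_mul_left h6 hp
    linarith
  have h4 : ((q : ℝ) - 1) / (n - 1) * ∑ g, f g ^ 2 ≤ J ^ 2 * E / 2 := by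
    refine le_trans (le_of_eq ?_) (h1.trans h3)
    rw [Nat.cast_sub hqn]
    congr 2
    ring
  have h5 := dirichlet hk x f
  rw [h5, ← hE]
  rcases hJ0.eq_or_lt with hz | hz
  · rw [← hz]
    simp only [ne_eq, OfNat.ofNat_ne_zero, not_false_eq_true, zero_pow, mul_zero, div_zero, zero_mul]
    positivity
  · rw [div_mul_eq_mul_div, div_le_div_iff₀ (by positivity) (by positivity)]
    calc ((q : ℝ) - 1) / (n - 1) * (∑ g, f g ^ 2) * (2 * k) ≤ (J ^ 2 * E / 2) * (2 * k) := by gcongr
      _ = _ := by ring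

end

end Run7.h624.PG
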