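import Pool.Agent.Run7.h624.PD.PairFinal
import Pool.Agent.Run7.h624.PG.Var

/-!
A lower bound of the spectral gap for random pairs in the alternating group.
-/

namespace Run7.h624.PG
open RC14 Finset Equiv Run7.h624.DM Run7.h624.PD Filter Topology

noncomputable section

/-- short words for products of disjoint three-cycles -/
def ShortT3 {k : ℕ} (n : ℕ) (s : ℝ) (x : Fin k → Alt n) : Prop :=
  ∃ q L : ℕ, q ≤ n ∧ AllT3 x q L ∧ (n : ℝ) ^ (1 / 3 : ℝ) ≤ 432 * ((n : ℝ) ^ s) ^ 4 * q ∧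
    (L : ℝ) ≤ n * ((n : ℝ) ^ s) ^ 4

/-- the deterministic theorem -/
theorem det3 {s κ : ℝ} (hs : 0 < s) (hs1 : s ≤ 1 / 100) (hκ : 0 < κ) (hκ4 : κ ≤ 1 / 4) (I : ℕ) :
    ∀ᶠ n : ℕ in atTop, ∀ x : Fin 2 → Alt n, Typ s n (x 0 : Perm (Fin n)) (x 1 : Perm (Fin n)) →
    (∃ i < I, Gd κ ((x 0 : Perm (Fin n)) ^ i * (x 1 : Perm (Fin n)))) → ShortT3 n s x := by
  obtain ⟨C, hC, hshrink⟩ := shrinkF hκ (show κ ≤ 1 / 2 by linarith)
  set J : ℕ := ⌈2 / s⌉₊ with hJ
  filter_upwards [ev_Bg hs hs1 hκ C I J] with n hB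
  intro x hT hGd
  have hK : 100 ≤ 100 + 10000 * (cn s : ℝ) ^ 3 := by
    have : (0 : ℝ) ≤ (cn s : ℝ) ^ 3 := by positivity
    linarith
  have h := hB.num
  have hn := h.npos hs hs1 hK
  have hn1 : 1 ≤ n := by have := h.a2; omega
  have hn1' : (1 : ℝ) ≤ n := by exact_mod_cast hn1
  have hc1 : (1 : ℝ) ≤ cn s := by exact_mod_cast cn_pos hs hs1 hK h
  have hc3 : (cn s : ℝ) ≤ (cn s : ℝ) ^ 3 := le_self_pow₀ hc1 (by norm_num)
  set a : ℝ := (n : ℝ) ^ s with ha
  have ha100 : a ^ 100 ≤ n := h.a100 hs hs1 hK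
  have ha6 := hB.a6
  rw [← ha] at ha6
  have ha0 : 1 ≤ a := by linarith
  have hap : 0 < a := by linarith
  -- mixing and routing
  obtain ⟨T, hTa, hmix⟩ := h.mix4 hs hs1 hK x hT (by linarith) hB.eta
  rw [← ha] at hTa
  have hroute := h.route hs hs1 hK x hT (by linarith) hTa hmix
  -- powers of `n`
  have hn2s : (n : ℝ) ^ (1 - 2 * s) = n / a ^ 2 := by
    rw [Real.rpow_sub hn, Real.rpow_one, ha, ← Real.rpow_natCast, ← Real.rpow_mul hn.le]
    congr 2
    push_cast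
    ring
  set H : ℝ := n / a with hH
  have hH0 : 0 < H := by positivity
  have ha5n : a ^ 5 ≤ n := (pow_le_pow_right₀ ha0 (by norm_num)).trans ha100
  have ha2n : a ^ 2 ≤ n := (pow_le_pow_right₀ ha0 (by norm_num)).trans ha100
  have haa : a ≤ a ^ 2 := le_self_pow₀ ha0 (by norm_num)
  have hκn : 4500 * a ^ 2 ≤ κ * n := by
    have h1 := hB.n1
    rw [hn2s, mul_div_assoc', le_div_iff₀ (by positivity)] at h1
    linarith
  have ha21 : (1 : ℝ) ≤ a ^ 2 := one_le_pow₀ ha0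
  have hgood : GoodF x κ H T := by
    refine ⟨hκ, by linarith, by nlinarith, ?_, ?_, 1 / (n : ℝ) ^ 2, by positivity, ?_, hmix⟩
    · rw [hH, div_pow, mul_div_assoc', le_div_iff₀ (by positivity)]
      nlinarith
    · rw [hH, le_div_iff₀ hap]
      linarith
    · field_simp
      exact le_rfl
  -- the first word
  obtain ⟨i, hi, l, hl, hl1, hl2⟩ := hGd
  have hu : (x 0) ^ i * x 1 ∈ Bl x I := by
    have h1 := Bl_mul x (Bl_pow x (Bl_gen x 0) i) (Bl_gen x 1)
    exact Bl_mono x (by omega) h1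
  have hz0 : ((x 0) ^ i * x 1) ^ l ∈ Bl x (n * I) :=
    Bl_mono x (Nat.mul_le_mul_right _ hl) (Bl_pow x hu l)
  have hsp : sp (((x 0) ^ i * x 1) ^ l) =
      (#(((x 0 : Perm (Fin n)) ^ i * (x 1 : Perm (Fin n))) ^ l).support : ℝ) := by
    unfold sp
    rw [Subgroup.coe_pow, Subgroup.coe_mul, Subgroup.coe_pow]
  obtain ⟨L', hL', z, hz, hz1, hz2⟩ := hshrink n 2 x H T (n * I) hgood _ hz0 (by
    rw [hsp]
    refine lt_of_lt_of_le ?_ hl1
    have h1 := hB.a1
    rw [← ha] at h1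
    rw [hH, div_lt_iff₀ hap]
    nlinarith) (by rw [hsp]; exact hl2)
  have hspz := sp_nonneg z
  -- `n / (6 a ^ 2) ≤ sp z ≤ n / a`
  have hz3 : n ≤ 6 * a ^ 2 * sp z := by
    have h1 : H ^ 2 = n * (n / a ^ 2) := by rw [hH]; ring
    rw [h1] at hz1
    have h2 : (n : ℝ) * (n / a ^ 2) ≤ n * (6 * sp z) := by linarith
    have h3 := le_of_mul_le_mul_left h2 hn
    rw [div_le_iff₀ (by positivity)] at h3
    linarith
  -- the size of `R`
  set R : ℝ := (Rn s n : ℝ) with hR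
  have hr1 : R ≤ (n : ℝ) ^ (1 / 3 - 2 * s) := Nat.floor_le (by positivity)
  have hr2 : (n : ℝ) ^ (1 / 3 - 2 * s) < R + 1 := Nat.lt_floor_add_one _
  have hr3 : (n : ℝ) ^ (1 / 3 - 2 * s) * a ^ 2 = (n : ℝ) ^ (1 / 3 : ℝ) := by
    rw [ha, ← Real.rpow_natCast, ← Real.rpow_mul hn.le, ← Real.rpow_add hn]
    congr 1
    push_cast
    ring
  have hr4 : (n : ℝ) ^ (1 / 3 - 4 * s) * a ^ 2 = (n : ℝ) ^ (1 / 3 - 2 * s) := by
    rw [ha, ← Real.rpow_natCast, ← Real.rpow_mul hn.le, ← Real.rpow_add hn]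
    congr 1
    push_cast
    ring
  have hr5 : 20000 * a ^ 2 ≤ (n : ℝ) ^ (1 / 3 - 2 * s) := by
    rw [← hr4]
    have := hB.r0
    gcongr
  have hr6 : 10000 * a ^ 2 ≤ R := by linarith
  have hR1 : 1 ≤ R := by linarith
  have hr7 : (n : ℝ) ^ (1 / 3 : ℝ) ≤ 2 * a ^ 2 * R := by
    rw [← hr3]
    have : (n : ℝ) ^ (1 / 3 - 2 * s) ≤ 2 * R := by linarith
    calc (n : ℝ) ^ (1 / 3 - 2 * s) * a ^ 2 ≤ 2 * R * a ^ 2 := by gcongr
      _ = _ := by ring
  have hR3 : R ^ 3 * a ^ 6 ≤ n := h.R3 hs hs1 hK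
  have hRz : R < sp z := by
    have h1 : 6 * a ^ 2 * R < 6 * a ^ 2 * sp z := by
      refine lt_of_lt_of_le ?_ hz3
      have h2 : R * a ^ 6 * R ^ 2 ≤ n := by
        calc R * a ^ 6 * R ^ 2 = R ^ 3 * a ^ 6 := by ring
          _ ≤ (n : ℝ) := hR3
      have h3 : a ^ 2 ≤ a ^ 6 := pow_le_pow_right₀ ha0 (by norm_num)
      have h4 : (7 : ℝ) ≤ R ^ 2 := by nlinarith
      have h5 : 0 < R * a ^ 2 := by positivity
      have h6 : R * a ^ 2 * 7 ≤ R * a ^ 6 * R ^ 2 := by gcongr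
      linarith
    exact lt_of_mul_lt_mul_left h1 (by positivity)
  have hn9 : 9000 ≤ n := by
    have h1 : (9000 : ℝ) ≤ a ^ 2 := by nlinarith
    have : (9000 : ℝ) ≤ n := h1.trans ha2n
    exact_mod_cast this
  have hJp : (12 * sp z / n) ^ J * sp z ≤ 1 := by
    set b : ℝ := (n : ℝ) ^ (s / 2) with hb
    have hb12 := hB.b12
    rw [← hb] at hb12
    have hb0 : 0 < b := by linarith
    have hab : a = b ^ 2 := by
      rw [ha, hb, ← Real.rpow_natCast, ← Real.rpow_mul hn.le]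
      congr 1
      push_cast
      ring
    have h1 : 12 * sp z / n ≤ 1 / b := by
      rw [div_le_div_iff₀ hn hb0]
      have h2 : sp z * a ≤ n := by
        rw [hH, le_div_iff₀ hap] at hz2
        exact hz2
      rw [hab] at h2
      calc 12 * sp z * b ≤ b * sp z * b := by gcongr
        _ = sp z * b ^ 2 := by ring
        _ ≤ 1 * n := by linarith
    have h2 : (n : ℝ) ≤ b ^ J := by
      rw [hb, ← Real.rpow_natCast, ← Real.rpow_mul hn.le]
      nth_rewrite 1 [← Real.rpow_one (n : ℝ)]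
      apply Real.rpow_le_rpow_of_exponent_le hn1'
      have h3 : 2 / s ≤ J := Nat.le_ceil _
      rw [div_le_iff₀ hs] at h3
      linarith
    have h3 : sp z ≤ n := by
      refine hz2.trans ?_
      rw [hH]
      exact div_le_self hn.le ha0
    calc (12 * sp z / n) ^ J * sp z ≤ (1 / b) ^ J * sp z := by gcongr
      _ = sp z / b ^ J := by rw [one_div, inv_pow]; ring
      _ ≤ 1 := by
        rw [div_le_one (by positivity)]
        linarith
  obtain ⟨Z, hZ, hZ1, hZ2⟩ := descend hn9 (by positivity : (0 : ℝ) ≤ 1 / (n : ℝ) ^ 2)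
    (by field_simp; exact le_rfl) hmix hz (by
      refine hz2.trans ?_
      rw [hH, div_le_iff₀ hap]
      nlinarith) (by
      have h1 : 1000 * (n : ℝ) ≤ 1000 * (6 * a ^ 2 * sp z) := by linarith
      refine h1.trans ?_
      calc 1000 * (6 * a ^ 2 * sp z) = (6000 * a ^ 2) * sp z := by ring
        _ ≤ R * sp z := by
          apply mul_le_mul_of_nonneg_right _ hspz
          linarith) hR1 hRz hJp
  -- the size of `q`
  set M := #(Z : Perm (Fin n)).support with hM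
  have hspM : sp Z = (M : ℝ) := rfl
  rw [hspM] at hZ1 hZ2
  have hM1 : R ≤ 36 * a ^ 2 * M := by
    have h1 : R * n ≤ n * (36 * a ^ 2 * M) := by
      calc R * n ≤ R * (6 * a ^ 2 * sp z) := by gcongr
        _ = 6 * a ^ 2 * (R * sp z) := by ring
        _ ≤ 6 * a ^ 2 * (6 * n * M) := by gcongr
        _ = _ := by ring
    have h2 : n * R ≤ n * (36 * a ^ 2 * M) := by linarith
    exact le_of_mul_le_mul_left h2 hn
  have hM200 : (200 : ℝ) ≤ M := by
    have h1 : 36 * a ^ 2 * 200 ≤ 36 * a ^ 2 * M := by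
      refine le_trans ?_ hM1
      linarith
    exact le_of_mul_le_mul_left h1 (by positivity)
  set q := M / 3 with hq
  have hq3 : 3 * q ≤ M := by omega
  have hqM : (M : ℝ) ≤ 3 * q + 3 := by
    have : M ≤ 3 * q + 3 := by omega
    exact_mod_cast this
  have hq6 : (M : ℝ) ≤ 6 * q := by linarith
  have hq1 : R ≤ 216 * a ^ 2 * q := by
    calc R ≤ 36 * a ^ 2 * M := hM1
      _ ≤ 36 * a ^ 2 * (6 * q) := by gcongr
      _ = _ := by ring
  have hq0 : 1 ≤ q := by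
    have h5 : (0 : ℝ) < q := by linarith
    exact_mod_cast h5
  have hMR : M ≤ Rn s n := by
    rw [hR] at hZ2
    exact_mod_cast hZ2
  have hMn : M + q ≤ n := by
    have h5 : (M : ℝ) + q ≤ n := by
      have h7 : (q : ℝ) ≤ M := by exact_mod_cast (show q ≤ M by omega)
      have h8 : 2 * R ≤ n := by
        have h9 : R ≤ R ^ 3 := le_self_pow₀ hR1 (by norm_num)
        have h10 : (2 : ℝ) ≤ a ^ 6 := by
          calc (2 : ℝ) ≤ a := by linarith
            _ ≤ a ^ 6 := le_self_pow₀ ha0 (by norm_num)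
        calc 2 * R ≤ a ^ 6 * R ^ 3 := by gcongr
          _ = R ^ 3 * a ^ 6 := by ring
          _ ≤ (n : ℝ) := hR3
      linarith
    exact_mod_cast h5
  have hall := allT3_of hroute Z hZ hMR q hq3 hMn
  have hLb : (2 * (2 ^ J * (3 * L' + 4 * T)) + 4 * n : ℝ) ≤ n * a ^ 4 := by
    have h5 : (L' : ℝ) ≤ a ^ 2 * n := by
      refine hL'.trans ?_
      push_cast
      have h6 := hB.a2
      have h7 := hB.a3
      rw [← ha] at h6 h7
      have hI0 : (0 : ℝ) ≤ I := Nat.cast_nonneg I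
      calc C * Real.log n ^ 2 * ((n : ℝ) * I + 2 * T) ≤ a * (n * I + 2 * n) := by
            apply mul_le_mul h6 _ (by positivity) hap.le
            linarith
        _ = a * (I + 2) * n := by ring
        _ ≤ a * a * n := by gcongr
        _ = _ := by ring
    have h6 := hB.a4
    rw [← ha] at h6
    have hTn : (T : ℝ) ≤ a ^ 2 * n := by
      calc (T : ℝ) ≤ 1 * n := by linarith
        _ ≤ a ^ 2 * n := by gcongr
    have h7 : (1 : ℝ) ≤ a ^ 3 := one_le_pow₀ ha0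
    calc (2 * (2 ^ J * (3 * L' + 4 * T)) + 4 * n : ℝ)
        ≤ 2 * (2 ^ J * (3 * (a ^ 2 * n) + 4 * (a ^ 2 * n))) + 4 * n := by gcongr
      _ = 2 * (7 * 2 ^ J) * (a ^ 2 * n) + 4 * 1 * n := by ring
      _ ≤ 2 * a * (a ^ 2 * n) + 4 * a ^ 3 * n := by gcongr
      _ = 6 * (n * a ^ 3) := by ring
      _ ≤ a * (n * a ^ 3) := by
        have : (6 : ℝ) ≤ a := by linarith
        gcongr
      _ = _ := by ring
  refine ⟨q, _, by omega, hall, ?_, ?_⟩
  · rw [← ha]
    calc (n : ℝ) ^ (1 / 3 : ℝ) ≤ 2 * a ^ 2 * R := hr7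
      _ ≤ 2 * a ^ 2 * (216 * a ^ 2 * q) := by gcongr
      _ = _ := by ring
  · rw [← ha]
    push_cast
    exact hLb

end

end Run7.h624.PG
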