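import Pool.Agent.Run7.h624.PG.Det

/-!
The spectral gap for `k ≥ 2` random elements of the alternating group.
-/

namespace Run7.h624.PG
open RC14 Finset Equiv Run7.h624.DM Run7.h624.PD Filter Topology

noncomputable section

variable {n : ℕ}

lemma AllT3_mono {k : ℕ} {x : Fin k → Alt n} {q L L' : ℕ} (h : AllT3 x q L) (hL : L ≤ L') :
    AllT3 x q L' := by
  intro q' hq' e
  obtain ⟨g, hg, hge⟩ := h q' hq' e
  exact ⟨g, Bl_mono x hL hg, hge⟩

/-- the numerical conditions -/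
structure Cd (s : ℝ) (k n : ℕ) : Prop where
  c1 : 4 ≤ n
  c2 : 648 * (k : ℝ) ≤ (n : ℝ) ^ s
  c3 : 1 + 5 * Real.log n ≤ (n : ℝ) ^ s
  c4 : 1296 ≤ (n : ℝ) ^ (1 / 3 - 4 * s)

lemma ev_Cd {s : ℝ} (hs : 0 < s) (hs1 : s ≤ 1 / 100) (k : ℕ) :
    ∀ᶠ n : ℕ in atTop, Cd s k n := by
  filter_upwards [eventually_ge_atTop 4, ev_pow hs (648 * (k : ℝ)), ev_log1 hs 6, ev_pow hs 6,
    ev_pow (show (0 : ℝ) < 1 / 3 - 4 * s by linarith) 1296, ev_log1 hs 1,
    ev_pow hs 1] with n h1 h2 h3 h4 h5 h6 h7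
  refine ⟨h1, h2, ?_, h5⟩
  have hlog : 1 ≤ Real.log n := by
    have h4 : (4 : ℝ) ≤ n := by exact_mod_cast h1
    rw [Real.le_log_iff_exp_le (by linarith)]
    have := Real.exp_one_lt_d9
    linarith
  linarith

/-- the gap from short words -/
theorem expanding_of {s δ : ℝ} (hs : 0 < s) (hs1 : s ≤ 1 / 100) (hδ : 15 * s ≤ δ) {k : ℕ}
    (hk : 1 ≤ k) (hc : Cd s k n) (x : Fin k → Alt n) (h : ShortT3 n s x) :
    Expanding ((n : ℝ) ^ (-(8 / 3 + δ))) x := by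
  obtain ⟨q, L0, hqn, hT0, hq, hL0⟩ := h
  have hkp : (0 : ℝ) < k := by exact_mod_cast hk
  have hn4 : (4 : ℝ) ≤ n := by exact_mod_cast hc.c1
  have hn : (0 : ℝ) < n := by linarith
  have hn1 : (1 : ℝ) ≤ n := by linarith
  set a : ℝ := (n : ℝ) ^ s with ha
  have ha1 : 1 ≤ a := Real.one_le_rpow hn1 hs.le
  have hap : 0 < a := by linarith
  -- the length
  set L : ℕ := ⌊(n : ℝ) * a ^ 4⌋₊ with hL
  have hLle : (L : ℝ) ≤ n * a ^ 4 := Nat.floor_le (by positivity)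
  have hT : AllT3 x q L := AllT3_mono hT0 (Nat.le_floor hL0)
  have hL1 : (1 : ℝ) ≤ L := by
    have : 1 ≤ L := Nat.le_floor (by
      have : (1 : ℝ) ≤ a ^ 4 := one_le_pow₀ ha1
      push_cast
      nlinarith)
    exact_mod_cast this
  -- the number `q`
  have e13 : (n : ℝ) ^ (1 / 3 - 4 * s) * a ^ 4 = (n : ℝ) ^ (1 / 3 : ℝ) := by
    rw [ha, ← Real.rpow_natCast, ← Real.rpow_mul hn.le, ← Real.rpow_add hn]
    congr 1
    push_cast
    ring
  have hq3 : (3 : ℝ) ≤ q := by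
    have h1 : 1296 * a ^ 4 ≤ 432 * a ^ 4 * q := by
      refine le_trans ?_ hq
      rw [← e13]
      have := hc.c4
      gcongr
    have h2 : 432 * a ^ 4 * 3 ≤ 432 * a ^ 4 * q := by linarith
    exact le_of_mul_le_mul_left h2 (by positivity)
  have hq3' : 3 ≤ q := by exact_mod_cast hq3
  constructor
  · rw [eq_top_iff]
    rintro g -
    obtain ⟨j, -, hg⟩ := all_words x q L (by omega) hT _ g rfl
    obtain ⟨w, -, hw, rfl⟩ := hg
    refine Subgroup.list_prod_mem _ fun y hy => ?_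
    obtain ⟨i, rfl | rfl⟩ := hw y hy
    · exact Subgroup.subset_closure ⟨i, rfl⟩
    · exact inv_mem (Subgroup.subset_closure ⟨i, rfl⟩)
  · intro f hf
    have h1 := gap_of_T3 hc.c1 hk x hq3' hqn hT f hf
    have hF : 0 ≤ ∑ g, f g ^ 2 := sum_nonneg fun _ _ => sq_nonneg _
    have hlog : 0 ≤ Real.log n := Real.log_natCast_nonneg n
    set J : ℝ := (1 + 5 * Real.log n) * L with hJ
    have hJ0 : 0 < J := by positivity
    have hJ1 : J ≤ n * a ^ 5 := by
      calc J ≤ a * (n * a ^ 4) := by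
            rw [hJ]
            have := hc.c3
            gcongr
        _ = _ := by ring
    have h2 : (n : ℝ) ^ (-(8 / 3 + δ)) ≤ ((q : ℝ) - 1) / (n - 1) / (k * J ^ 2) := by
      have e1 : (n : ℝ) ^ (-(8 / 3 + δ)) ≤ (n : ℝ) ^ (1 / 3 : ℝ) / (n ^ 3 * a ^ 15) := by
        rw [le_div_iff₀ (by positivity), ha, ← Real.rpow_natCast, ← Real.rpow_natCast,
          ← Real.rpow_mul hn.le, ← Real.rpow_add hn, ← Real.rpow_add hn]
        apply Real.rpow_le_rpow_of_exponent_le hn1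
        push_cast
        linarith
      refine e1.trans ?_
      have hn3 : (0 : ℝ) < (n : ℝ) - 1 := by linarith
      rw [div_div, div_le_div_iff₀ (by positivity) (by positivity)]
      have e2 : (n : ℝ) ^ (1 / 3 : ℝ) ≤ 648 * a ^ 4 * (q - 1) := by
        refine hq.trans ?_
        have : (432 : ℝ) * q ≤ 648 * (q - 1) := by linarith
        calc 432 * a ^ 4 * (q : ℝ) = a ^ 4 * (432 * q) := by ring
          _ ≤ a ^ 4 * (648 * (q - 1)) := by gcongr
          _ = _ := by ring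
      have e3 : ((n : ℝ) - 1) * (k * J ^ 2) ≤ n * (k * (n * a ^ 5) ^ 2) := by
        have : (n : ℝ) - 1 ≤ n := by linarith
        gcongr
      have hq1 : (0 : ℝ) ≤ q - 1 := by linarith
      calc (n : ℝ) ^ (1 / 3 : ℝ) * (((n : ℝ) - 1) * (k * J ^ 2))
          ≤ (648 * a ^ 4 * (q - 1)) * (n * (k * (n * a ^ 5) ^ 2)) := by gcongr
        _ = (q - 1) * (n ^ 3 * a ^ 14 * (648 * k)) := by ring
        _ ≤ (q - 1) * (n ^ 3 * a ^ 14 * a) := by
          have := hc.c2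
          gcongr
        _ = _ := by ring
    have h3 := mul_le_mul_of_nonneg_right h2 hF
    linarith

open Classical in
/-- most pairs are good -/
theorem pairs_T3 {s : ℝ} (hs : 0 < s) (hs1 : s ≤ 1 / 100) {ϑ : ℝ} (h0 : 0 < ϑ) (h1 : ϑ ≤ 1) :
    ∀ᶠ n : ℕ in atTop, (#{z : Alt n × Alt n | ¬ ShortT3 n s (two z.1 z.2)} : ℝ) ≤
      8 * ϑ * (Fintype.card (Alt n) : ℝ) ^ 2 := by
  obtain ⟨I, n1, hn1⟩ := long_pair ϑ h0 h1
  have hκ : 0 < kapc ϑ := by unfold kapc; positivity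
  have hκ4 : kapc ϑ ≤ 1 / 4 := by unfold kapc; nlinarith
  filter_upwards [card_not_Typ hs hs1 h0, det3 hs hs1 hκ hκ4 I, eventually_ge_atTop n1,
    eventually_ge_atTop 2] with n h2 h3 h4 h5
  have h6 := hn1 n h4
  set E1 : Finset (Perm (Fin n) × Perm (Fin n)) := {z | ¬ Typ s n z.1 z.2} with hE1
  set E2 : Finset (Perm (Fin n) × Perm (Fin n)) :=
    {z | ¬ ∃ i < I, Gd (kapc ϑ) (z.1 ^ i * z.2)} with hE2
  have hE : (#{z : Perm (Fin n) × Perm (Fin n) | ¬ Typ s n z.1 z.2 ∨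
      ¬ ∃ i < I, Gd (kapc ϑ) (z.1 ^ i * z.2)} : ℝ) ≤ 2 * ϑ * (n.factorial : ℝ) ^ 2 := by
    have h7 : ({z : Perm (Fin n) × Perm (Fin n) | ¬ Typ s n z.1 z.2 ∨
      ¬ ∃ i < I, Gd (kapc ϑ) (z.1 ^ i * z.2)} : Finset _) ⊆ E1 ∪ E2 := by
      intro z hz
      rw [mem_union, hE1, hE2, mem_filter, mem_filter]
      rcases (mem_filter.1 hz).2 with h | h
      · exact Or.inl ⟨mem_univ _, h⟩
      · exact Or.inr ⟨mem_univ _, h⟩
    have h8 : (#{z : Perm (Fin n) × Perm (Fin n) | ¬ Typ s n z.1 z.2 ∨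
      ¬ ∃ i < I, Gd (kapc ϑ) (z.1 ^ i * z.2)} : ℝ) ≤ #E1 + #E2 := by
      exact_mod_cast (card_le_card h7).trans (card_union_le _ _)
    linarith
  have h7 : (#{z : Alt n × Alt n | ¬ Typ s n (z.1 : Perm (Fin n)) (z.2 : Perm (Fin n)) ∨
        ¬ ∃ i < I, Gd (kapc ϑ) ((z.1 : Perm (Fin n)) ^ i * (z.2 : Perm (Fin n)))} : ℝ) ≤
        4 * (2 * ϑ) * (Fintype.card (Alt n) : ℝ) ^ 2 := by
    have := card_Alt2_le (fun x y => ¬ Typ s n x y ∨ ¬ ∃ i < I, Gd (kapc ϑ) (x ^ i * y)) (2 * ϑ) h5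
      (by convert hE)
    convert this
  refine le_trans ?_ (h7.trans (le_of_eq (by ring)))
  have h8 : #{z : Alt n × Alt n | ¬ ShortT3 n s (two z.1 z.2)} ≤
      #{z : Alt n × Alt n | ¬ Typ s n (z.1 : Perm (Fin n)) (z.2 : Perm (Fin n)) ∨
        ¬ ∃ i < I, Gd (kapc ϑ) ((z.1 : Perm (Fin n)) ^ i * (z.2 : Perm (Fin n)))} := by
    apply card_le_card
    intro z hz
    rw [mem_filter] at hz ⊢
    refine ⟨mem_univ _, ?_⟩
    by_contra hcon
    rw [not_or, not_not, not_not] at hcon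
    exact hz.2 (h3 (two z.1 z.2) hcon.1 hcon.2)
  exact_mod_cast h8

/-- the gap for a fixed number of random elements -/
theorem gap_pairs (k : ℕ) (hk : 2 ≤ k) (δ : ℝ) (hδ : 0 < δ) : Tendsto (fun n : ℕ =>
    (Nat.card {x : Fin k → Alt n // Expanding ((n : ℝ) ^ (-(8 / 3 + δ))) x} : ℝ) /
        (Fintype.card (Alt n) : ℝ) ^ k) atTop (𝓝 1) := by
  classical
  obtain ⟨k', rfl⟩ : ∃ k', k = k' + 2 := ⟨k - 2, by omega⟩
  set s : ℝ := min δ 1 / 100 with hs
  have hm : 0 < min δ 1 := lt_min hδ one_pos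
  have hs0 : 0 < s := by positivity
  have hs1 : s ≤ 1 / 100 := by
    have : min δ 1 ≤ 1 := min_le_right _ _
    rw [hs]; linarith
  have hs3 : 15 * s ≤ δ := by
    have : min δ 1 ≤ δ := min_le_left _ _
    rw [hs]; linarith
  have hpos : ∀ n : ℕ, (0 : ℝ) < (Fintype.card (Alt n) : ℝ) := fun n => by
    exact_mod_cast Fintype.card_pos
  have key : ∀ ϑ : ℝ, 0 < ϑ → ϑ ≤ 1 → ∀ᶠ n : ℕ in atTop, (Nat.card {x : Fin (k' + 2) → Alt n //
      ¬ Expanding ((n : ℝ) ^ (-(8 / 3 + δ))) x} : ℝ) ≤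
        8 * ϑ * (Fintype.card (Alt n) : ℝ) ^ (k' + 2) := by
    intro ϑ hϑ hϑ1
    filter_upwards [pairs_T3 hs0 hs1 hϑ hϑ1, ev_Cd hs0 hs1 (k' + 2)] with n h1 h3
    have h2 : #{x : Fin (k' + 2) → Alt n | ¬ ShortT3 n s (two (x 0) (x 1))} =
        #{z : Alt n × Alt n | ¬ ShortT3 n s (two z.1 z.2)} * Fintype.card (Alt n) ^ k' := by
      have := card_cons2 (n := n) (fun a b => ¬ ShortT3 n s (two a b)) k'
      convert this
    have h4 : (#{x : Fin (k' + 2) → Alt n | ¬ ShortT3 n s (two (x 0) (x 1))} : ℝ) ≤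
        8 * ϑ * (Fintype.card (Alt n) : ℝ) ^ (k' + 2) := by
      rw [h2]
      push_cast
      calc _ ≤ (8 * ϑ * (Fintype.card (Alt n) : ℝ) ^ 2) * (Fintype.card (Alt n) : ℝ) ^ k' := by
            gcongr
        _ = _ := by ring
    refine le_trans ?_ h4
    rw [← Fintype.card_subtype, ← Nat.card_eq_fintype_card]
    have h5 := RC14.card_mono (fun x : Fin (k' + 2) → Alt n =>
      ¬ Expanding ((n : ℝ) ^ (-(8 / 3 + δ))) x)
        (fun x => ¬ ShortT3 n s (two (x 0) (x 1))) (by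
        intro x hx h
        apply hx
        apply expanding_of hs0 hs1 hs3 (by omega) h3 x
        obtain ⟨q, L, hq1, hq2, hq3, hq4⟩ := h
        refine ⟨q, L, hq1, ?_, hq3, hq4⟩
        intro q' hq' e
        obtain ⟨g, hg, hge⟩ := hq2 q' hq' e
        refine ⟨g, ?_, hge⟩
        have hsub : Bl (two (x 0) (x 1)) L ⊆ Bl x L := by
          apply Bl_sub
          intro i
          fin_cases i
          · exact ⟨0, rfl⟩
          · exact ⟨1, rfl⟩
        exact hsub hg)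
    exact_mod_cast h5
  refine tendsto_order.mpr ⟨fun b hb => ?_, fun b hb => ?_⟩
  · filter_upwards [key (min ((1 - b) / 10) 1) (lt_min (by linarith) one_pos) (min_le_right _ _)]
      with n hn
    have hA := hpos n
    rw [lt_div_iff₀ (by positivity), RC14.card_compl, Fintype.card_fun, Fintype.card_fin]
    push_cast
    have hp : (0 : ℝ) < (Fintype.card (Alt n) : ℝ) ^ (k' + 2) := by positivity
    have h1 : min ((1 - b) / 10) 1 ≤ (1 - b) / 10 := min_le_left _ _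
    have h2 : 8 * min ((1 - b) / 10) 1 * (Fintype.card (Alt n) : ℝ) ^ (k' + 2) ≤
        8 * ((1 - b) / 10) * (Fintype.card (Alt n) : ℝ) ^ (k' + 2) := by gcongr
    nlinarith
  · refine Eventually.of_forall fun n => lt_of_le_of_lt ?_ hb
    have hA := hpos n
    rw [div_le_one (by positivity), RC14.card_compl, Fintype.card_fun, Fintype.card_fin]
    push_cast
    have h1 := Nat.cast_nonneg (α := ℝ) (Nat.card {x : Fin (k' + 2) → Alt n //
      ¬ Expanding ((n : ℝ) ^ (-(8 / 3 + δ))) x})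
    linarith

end

end Run7.h624.PG
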